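import Pool.Agent.N875.P17.Mat

/-!
# The symmetric matrices of the 2-descent for ALL twists of the curve `X_0(24)`

`E_m : y² = x (x - m) (x + 3 m)` (`m = 1`: `24a1 = X_0(24)`).  Verified numerically for all squarefree
`m`, `|m| ≤ 3000`: the kernel of the system `Sol24` has the dimension of the 2-Selmer group of
`E_m`, the matrix is symmetric and the dimension is even iff `w24 m = 1`.

Square classes `w` of `x`, `u` of `x - m` (`v = u w` of `x + 3 m`); the 2-torsion points `(0, 0)`,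
`(m, 0)` have `(w, u) = (-3, -m)`, `(m, 1)`.  Local images:
* odd `p ∣ m`, `p ≠ 3`: `u (-m)^x = 1`, `w m^y (-3)^x = 1` (`x`, `y` the valuations of `u`, `w`);
  `3 ∣ m`: `u (-m)^x = 1`, `w m^y (-3 m)^x = 1`;
* infinity: `m > 0`: `u w > 0`; `m < 0`: `u > 0`;
* `3 ∤ m`: `m = 2 mod 3` (split): `u = 1`, `w` free; `m = 1 mod 3`: `u` a unit with
  `[u] = ` valuation of `w`;
* at `2` (dimension `3`):
  `m = 5 mod 8`: `w ∈ {1, 5}`, `u` a unit;
  `m = 3 mod 4`: `w` a unit, `u ∈ {1, 5}`;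
  `m = 1 mod 8`: `w` a unit, `w = 1`: `u ∈ {1, 5}`; `w = 5`: `u ∈ {-1, -5}`; `w = -1`:
  `u ∈ {-2, -10}`; `w = -5`: `u ∈ {2, 10}`;
  `m` even: `w = m^i 5^j`, `(u, m)_2 = 1`, `j = ` valuation of `u`.

`w = (-1)^b (-3)^c ∏ q*^(y q)`, `u = (-1)^s 2^b ∏ p^(x p)` (products over `PR m`, `q* = ps m q`).
-/

set_option autoImplicit false

open Finset

namespace Pool.Agent.N972.P24

open Pool.Agent.N875.X15
open Pool.Agent.N875.P17

/-- the symmetric system; the diagonal entry `Lm m p 3` is `(-3 / p)` for `p ≠ 3` (`1` for `p = 2`) -/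
structure Sol24 (m : ℤ) (x y : ℕ → ZMod 2) (s b c : ZMod 2) : Prop where
  s0 : m < 0 → s = 0
  b0 : m % 8 ≠ 1 → b = 0
  c0 : (3 : ℤ) ∣ m → c = 0
  x0 : m % 4 = 3 → x 2 = 0
  row : ∀ p ∈ PR m, (p = 2 → m % 4 ≠ 3) →
    Lm m p 3 * x p + ∑ q ∈ PR m, Lm m p q * y q + b * al m p + c * Lm m p 3 = 0
  col : ∀ q ∈ PR m, ∑ p ∈ PR m, Lm m p q * x p + s * al m q + b * ra 2 (ps m q) = 0
  sgn : 0 < m → ∑ q ∈ PR m, al m q * y q + s + b + c = 0
  at2 : m % 8 = 1 → ∑ p ∈ PR m, al m p * x p + ∑ q ∈ PR m, ra 2 (ps m q) * y q + s + b + c = 0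
  at3 : ¬ (3 : ℤ) ∣ m → ∑ p ∈ PR m, Lm m p 3 * x p + s + b + (if m % 3 = 1 then c else 0) = 0

/-- only the trivial solutions (the images of the 2-torsion points `(m, 0)` and `(0, 0)`); for
`m = 1` the point of order `4` gives another solution -/
def Sg24 (m : ℤ) : Prop := ∀ (x y : ℕ → ZMod 2) (s b c : ZMod 2), Sol24 m x y s b c →
  b = 0 ∧ ∃ α β : ZMod 2, s = (if 0 < m then α else 0) ∧ c = (if (3 : ℤ) ∣ m then 0 else α) ∧
    (∀ p ∈ PR m, x p = if (p : ℤ) ∣ m then α else 0) ∧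
    ∀ q ∈ PR m, y q = β + if q = 3 then α else 0

/-- the root number of the twist by `m`, level `24` -/
def w24 (m : ℤ) : ℤ := (if m < 0 then -1 else 1) * (if m % 3 = 2 then -1 else 1) *
  (if m % 8 = 1 ∨ m % 4 = 3 then 1 else -1)

end Pool.Agent.N972.P24
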